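import Pool.Agent.Helper45.FG.St

/-! Project FG (MP_7221b2_al), module FGK: the Galois trick for the constituents of an object -/

set_option autoImplicit false

namespace Pool.Agent.Helper36.FG

open Pool.Agent.Helper45.FG

open scoped BigOperators

/-- an element of norm at most its real part is real -/
private theorem eq_of_norm_le {z : ℂ} {x : ℝ} (h1 : ‖z‖ ≤ x) (h2 : z.re = x) : z = (x : ℂ) := by
  have h3 : |z.re| = ‖z‖ := by
    refine le_antisymm (Complex.abs_re_le_norm z) ?_
    rw [h2]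
    exact h1.trans (le_abs_self x)
  have h4 := Complex.abs_re_eq_norm.1 h3
  exact Complex.ext (by simpa using h2) (by simpa using h4)

theorem hFGK (hFCH : StFCH) (hFIN : StFIN) : StFGK := by
  intro K _ I _ R d hd n hsum i0 hn0
  by_contra hK0
  obtain ⟨-, hint, -⟩ := hFIN I R d hd
  have hintK : ∀ i, IsIntegral K (d i) := fun i => (hint i).tower_top
  set S : Set ℝ := Set.range d with hS
  have hmem : ∀ i, d i ∈ IntermediateField.adjoin K S :=
    fun i => IntermediateField.subset_adjoin K S ⟨i, rfl⟩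
  -- a second root
  have hdeg : 1 < (minpoly K (d i0)).natDegree := by
    have h1 : (minpoly K (d i0)).natDegree ≠ 1 := by
      intro h
      obtain ⟨y, hy⟩ := minpoly.natDegree_eq_one_iff.1 h
      apply hK0
      rw [← hy]
      exact y.2
    have h2 := minpoly.natDegree_pos (hintK i0)
    omega
  have hsplit : ((minpoly K (d i0)).map (algebraMap K ℂ)).Splits := IsAlgClosed.splits _
  have hcard := Polynomial.card_rootSet_eq_natDegree (K := ℂ)
    (minpoly.irreducible (hintK i0)).separable hsplit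
  have hroot : Polynomial.aeval ((d i0 : ℝ) : ℂ) (minpoly K (d i0)) = 0 := by
    have h1 := Polynomial.aeval_algebraMap_apply ℂ (d i0) (minpoly K (d i0))
    rw [minpoly.aeval, map_zero] at h1
    exact h1
  have hroot' : ((d i0 : ℝ) : ℂ) ∈ (minpoly K (d i0)).rootSet ℂ :=
    (Polynomial.mem_rootSet_of_ne (minpoly.ne_zero (hintK i0))).2 hroot
  obtain ⟨⟨z, hz⟩, hzne⟩ := Fintype.exists_ne_of_one_lt_card (by rw [hcard]; exact hdeg)
    (⟨_, hroot'⟩ : (minpoly K (d i0)).rootSet ℂ)
  have hz0 : Polynomial.aeval z (minpoly K (d i0)) = 0 :=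
    (Polynomial.mem_rootSet_of_ne (minpoly.ne_zero (hintK i0))).1 hz
  have hzne' : z ≠ ((d i0 : ℝ) : ℂ) := fun h => hzne (Subtype.ext h)
  obtain ⟨φ, hφ⟩ := IntermediateField.exists_algHom_adjoin_of_splits_of_aeval (F := K) (E := ℝ)
    (K := ℂ) (S := S) (by
      rintro s ⟨i, rfl⟩
      exact ⟨hintK i, IsAlgClosed.splits _⟩) (hmem i0) hz0
  -- the character
  have hmul : ∀ i j, φ ⟨d i, hmem i⟩ * φ ⟨d j, hmem j⟩ =
      ∑ k, (R.N i j k : ℂ) * φ ⟨d k, hmem k⟩ := by
    intro i j
    have h1 : (⟨d i, hmem i⟩ : IntermediateField.adjoin K S) * ⟨d j, hmem j⟩ =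
        ∑ k, (R.N i j k : IntermediateField.adjoin K S) * ⟨d k, hmem k⟩ := by
      apply Subtype.ext
      push_cast
      exact hd.mul i j
    rw [← map_mul, h1, map_sum]
    refine Finset.sum_congr rfl fun k _ => ?_
    rw [map_mul, map_natCast]
  have hle := hFCH I R d hd (fun j => φ ⟨d j, hmem j⟩) hmul
  have hval : ∑ i, (n i : ℂ) * φ ⟨d i, hmem i⟩ = ((∑ i, (n i : ℝ) * d i : ℝ) : ℂ) := by
    have h1 : ∑ i, (n i : IntermediateField.adjoin K S) * ⟨d i, hmem i⟩ =
        algebraMap K (IntermediateField.adjoin K S) ⟨_, hsum⟩ := by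
      apply Subtype.ext
      push_cast
      rfl
    have h2 := congrArg φ h1
    rw [map_sum, φ.commutes] at h2
    have h3 : ∀ i, φ ((n i : IntermediateField.adjoin K S) * ⟨d i, hmem i⟩) =
        (n i : ℂ) * φ ⟨d i, hmem i⟩ := by
      intro i
      rw [map_mul, map_natCast]
    rw [Finset.sum_congr rfl fun i _ => h3 i] at h2
    rw [h2]
    rfl
  have hre : ∑ i, (n i : ℝ) * (d i - (φ ⟨d i, hmem i⟩).re) = 0 := by
    have h1 := congrArg Complex.re hval
    rw [Complex.re_sum, Complex.ofReal_re] at h1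
    have h2 : ∀ i, ((n i : ℂ) * φ ⟨d i, hmem i⟩).re = (n i : ℝ) * (φ ⟨d i, hmem i⟩).re := by
      intro i
      simp [Complex.mul_re]
    rw [Finset.sum_congr rfl fun i _ => h2 i] at h1
    have h3 : ∀ i, (n i : ℝ) * (d i - (φ ⟨d i, hmem i⟩).re) =
        (n i : ℝ) * d i - (n i : ℝ) * (φ ⟨d i, hmem i⟩).re := fun i => by ring
    rw [Finset.sum_congr rfl fun i _ => h3 i, Finset.sum_sub_distrib, h1, sub_self]
  have hnn : ∀ i ∈ Finset.univ, 0 ≤ (n i : ℝ) * (d i - (φ ⟨d i, hmem i⟩).re) := by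
    intro i _
    refine mul_nonneg (Nat.cast_nonneg _) (sub_nonneg.2 ?_)
    exact (Complex.re_le_norm _).trans (hle i)
  have h0 := (Finset.sum_eq_zero_iff_of_nonneg hnn).1 hre i0 (Finset.mem_univ _)
  rcases mul_eq_zero.1 h0 with h | h
  · exact hn0 (by exact_mod_cast h)
  · have h5 : (φ ⟨d i0, hmem i0⟩).re = d i0 := by linarith
    have h6 := eq_of_norm_le (hle i0) h5
    rw [hφ] at h6
    exact hzne' h6

end Pool.Agent.Helper36.FG
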