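import Pool.Agent.Helper45.FG.St2

/-! Project FG (MP_7221b2_al), module NRO: the norm bound with one small gap -/

set_option autoImplicit false

namespace Pool.Agent.Helper36.FG

open Pool.Agent.Helper45.FG
open scoped BigOperators

/-- The absolute value of the product of the conjugates of a nonzero algebraic integer is at least one. -/
private lemma one_le_prod_abs (K : IntermediateField ℚ ℝ) [FiniteDimensional ℚ K] [IsGalois ℚ K]
    (y : K) (hy : IsIntegral ℤ y) (hy0 : y ≠ 0) :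
    1 ≤ ∏ t : K ≃ₐ[ℚ] K, |((t y : K) : ℝ)| := by
  have hint : IsIntegral ℤ (Algebra.norm ℚ y) := Algebra.isIntegral_norm ℚ hy
  obtain ⟨m, hm⟩ := IsIntegrallyClosed.isIntegral_iff.mp hint
  have hN0 : Algebra.norm ℚ y ≠ 0 := (Algebra.norm_ne_zero_iff).mpr hy0
  have hm0 : m ≠ 0 := by
    rintro rfl
    apply hN0
    rw [← hm]
    simp
  have hm1 : (1 : ℝ) ≤ |(m : ℝ)| := by
    have := Int.one_le_abs hm0
    exact_mod_cast this
  have hprod := Algebra.norm_eq_prod_automorphisms ℚ y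
  have hcast : ((algebraMap ℚ K (Algebra.norm ℚ y) : K) : ℝ) = (m : ℝ) := by
    rw [← hm]
    simp
  have hcast2 : ((∏ t : K ≃ₐ[ℚ] K, t y : K) : ℝ) = ∏ t : K ≃ₐ[ℚ] K, ((t y : K) : ℝ) := by
    exact map_prod (algebraMap K ℝ) (fun t : K ≃ₐ[ℚ] K => t y) Finset.univ
  rw [← Finset.abs_prod, ← hcast2, ← hprod, hcast]
  exact hm1

theorem hNRO : StNRO := by
  intro K hfd hgal x s hx habs hs
  have _ := hfd
  have _ := hgal
  classical
  have hy : IsIntegral ℤ (x - s x) := hx.sub (hx.map s)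
  have hy0 : x - s x ≠ 0 := fun h => hs (sub_eq_zero.mp h).symm
  have h1 := one_le_prod_abs K (x - s x) hy hy0
  have hval : ∀ t : K ≃ₐ[ℚ] K, ((t (x - s x) : K) : ℝ) = ((t x : K) : ℝ) - (((t * s) x : K) : ℝ) := by
    intro t
    rw [map_sub, AlgEquiv.mul_apply]
    rfl
  have hn : Fintype.card (K ≃ₐ[ℚ] K) = Module.finrank ℚ K := by
    rw [← Nat.card_eq_fintype_card]
    exact IsGalois.card_aut_eq_finrank ℚ K
  have hbig : ∀ t : K ≃ₐ[ℚ] K, |((t (x - s x) : K) : ℝ)| ≤ 2 * (x : ℝ) := by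
    intro t
    rw [hval t]
    have ha := abs_le.mp (habs t)
    have hb := abs_le.mp (habs (t * s))
    rw [abs_le]
    constructor <;> linarith
  have hone : |(((1 : K ≃ₐ[ℚ] K) (x - s x) : K) : ℝ)| = (x : ℝ) - ((s x : K) : ℝ) := by
    have h2 : (((1 : K ≃ₐ[ℚ] K) (x - s x) : K) : ℝ) = (x : ℝ) - ((s x : K) : ℝ) := rfl
    rw [h2, abs_of_nonneg]
    have := (abs_le.mp (habs s)).2
    linarith
  rw [← Finset.mul_prod_erase Finset.univ (fun t : K ≃ₐ[ℚ] K => |((t (x - s x) : K) : ℝ)|)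
    (Finset.mem_univ 1)] at h1
  refine h1.trans ?_
  have hA : ∏ t ∈ Finset.univ.erase (1 : K ≃ₐ[ℚ] K), |((t (x - s x) : K) : ℝ)|
      ≤ (2 * (x : ℝ)) ^ (Module.finrank ℚ K - 1) := by
    have hcard : (Finset.univ.erase (1 : K ≃ₐ[ℚ] K)).card = Module.finrank ℚ K - 1 := by
      rw [Finset.card_erase_of_mem (Finset.mem_univ _), Finset.card_univ, hn]
    rw [← hcard, ← Finset.prod_const]
    exact Finset.prod_le_prod (fun t _ => abs_nonneg _) fun t _ => hbig t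
  have h3 : |(((1 : K ≃ₐ[ℚ] K) (x - s x) : K) : ℝ)| *
      ∏ t ∈ Finset.univ.erase (1 : K ≃ₐ[ℚ] K), |((t (x - s x) : K) : ℝ)| ≤
      |(((1 : K ≃ₐ[ℚ] K) (x - s x) : K) : ℝ)| * (2 * (x : ℝ)) ^ (Module.finrank ℚ K - 1) :=
    mul_le_mul_of_nonneg_left hA (abs_nonneg _)
  rw [hone] at h3
  rw [hone]
  exact h3

end Pool.Agent.Helper36.FG
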